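import Mathlib
import Pool.Agent.Y214.LinSub.MainTwo

set_option autoImplicit false

namespace Pool.Agent.Results.MP_46a474_nt.EveryDegree

open Polynomial

/-- **Main result.** Let `F` be any finite field, `p` its characteristic. If `p` is odd then for
every degree `d > 2 p` there is an absolutely irreducible `f ∈ F[X, Y]` of total degree `d` such
that `f (a Y + b, Y)` is never irreducible (`N (f) = 0`); the same holds for `d = 2 p` when
`|F| ≡ 1 mod 4`, for odd `d > p` prime to `p` when `(-1) ^ ((d - 1) / 2) * d` is not a square in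
`F`, and for `p = 2` and `d = 2 ^ k`, `k ≥ 3`. The field `F` may be arbitrarily large compared
to `d`. -/
theorem result (p : ℕ) [Fact p.Prime] (F : Type*) [Field F] [Finite F] [CharP F p] (d : ℕ)
    (hd : (p ≠ 2 ∧ 2 * p < d) ∨
      (p ≠ 2 ∧ d = 2 * p ∧ Nat.card F % 4 = 1) ∨
      (p ≠ 2 ∧ p < d ∧ Odd d ∧ ¬ p ∣ d ∧ ¬ IsSquare ((-1) ^ ((d - 1) / 2) * (d : F))) ∨
      (p = 2 ∧ ∃ k : ℕ, 3 ≤ k ∧ d = 2 ^ k)) :
    ∃ f : MvPolynomial (Fin 2) F,
      Irreducible f ∧
      Irreducible (MvPolynomial.map (algebraMap F (AlgebraicClosure F)) f) ∧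
      f.totalDegree = d ∧
      ∀ a b : F,
        ¬ Irreducible (MvPolynomial.aeval
          ![Polynomial.C a * Polynomial.X + Polynomial.C b, (Polynomial.X : F[X])] f) := by
  rcases hd with ⟨h2, h⟩ | ⟨h2, h⟩ | ⟨h2, h⟩ | ⟨rfl, k, hk, rfl⟩
  · exact Pool.Agent.Y214.LinSub.bad_odd p h2 (Or.inl h)
  · exact Pool.Agent.Y214.LinSub.bad_odd p h2 (Or.inr (Or.inl h))
  · exact Pool.Agent.Y214.LinSub.bad_odd p h2 (Or.inr (Or.inr h))
  · refine Pool.Agent.Y214.LinSub.bad_affine 2 (by omega) ?_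
    obtain ⟨m, rfl⟩ := Nat.exists_eq_add_of_le hk
    rw [show 3 + m - 1 = m + 2 by omega, pow_add]
    have := Nat.lt_two_pow_self (n := m)
    omega

end Pool.Agent.Results.MP_46a474_nt.EveryDegree
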