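import Pool.Agent.Y713.ES.Main2

/-!
# No substitution at all: one polynomial of degree `8 p` for all finite fields of characteristic `p`

Question 1 asks whether every irreducible `f` in `F_q[X, Y]` of degree `d` with `q > d ^ 4` has an
irreducible substitution `f (a Y + b, Y)`. The earlier result `AffineCounterexample` answers it
negatively with polynomials of degree `p ^ 3` (`q = p ^ n`, `n ≥ 13`) and the linear substitutions
`X ↦ a Y + b`. Here ONE polynomial `f = (X ^ 2 + Y) ^ (4 p) + Y` with coefficients in the prime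
field, of degree `8 p`, irreducible over every field of characteristic `p`, has over EVERY finite
field of characteristic `p` no irreducible substitution `X ↦ g (Y)` whatsoever, neither with a
polynomial `g` of any degree nor with a rational function `g` (the numerator of `f (g (Y), Y)` is
always reducible).

The proof is the parity argument of Stickelberger and Swan: the polynomial
`h = (a ^ 2 + Y b ^ 2) ^ (4 p) + Y b ^ (8 p)` has degree divisible by four and derivative
`b ^ (8 p)`, so its discriminant is a square and the Frobenius is an even permutation of its roots;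
in characteristic two the same is done with Witt vectors modulo eight.
-/

set_option autoImplicit false

namespace Pool.Agent.Results.MP_46a474_nt.EverySubstitution

open Polynomial

universe u

/-- The polynomial `(X ^ 2 + Y) ^ (4 p) + Y`; the variables are `X = X 0` and `Y = X 1`. -/
noncomputable def F (K : Type u) [Field K] (p : ℕ) : MvPolynomial (Fin 2) K :=
  (MvPolynomial.X 0 ^ 2 + MvPolynomial.X 1) ^ (4 * p) + MvPolynomial.X 1

/-! ### Irreducibility and degree -/

theorem irreducible_F (L : Type u) [Field L] (p : ℕ) (hp : 0 < p) : Irreducible (F L p) := by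
  -- the automorphism `Y ↦ Y + X ^ 2`
  let e₁ : MvPolynomial (Fin 2) L →ₐ[L] MvPolynomial (Fin 2) L :=
    MvPolynomial.aeval ![MvPolynomial.X 0, MvPolynomial.X 1 + MvPolynomial.X 0 ^ 2]
  let e₂ : MvPolynomial (Fin 2) L →ₐ[L] MvPolynomial (Fin 2) L :=
    MvPolynomial.aeval ![MvPolynomial.X 0, MvPolynomial.X 1 - MvPolynomial.X 0 ^ 2]
  have h12 : e₁.comp e₂ = AlgHom.id L _ := by
    apply MvPolynomial.algHom_ext
    intro i
    fin_cases i <;> simp [e₁, e₂]
  have h21 : e₂.comp e₁ = AlgHom.id L _ := by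
    apply MvPolynomial.algHom_ext
    intro i
    fin_cases i <;> simp [e₁, e₂]
  let e : MvPolynomial (Fin 2) L ≃ₐ[L] MvPolynomial (Fin 2) L := AlgEquiv.ofAlgHom e₁ e₂ h12 h21
  set f₀ : MvPolynomial (Fin 2) L :=
    MvPolynomial.X 0 ^ 2 - (MvPolynomial.X 1 ^ (4 * p) + MvPolynomial.X 1) with hf₀
  have he : F L p = - e f₀ := by
    change F L p = - e₁ f₀
    rw [hf₀, F]
    simp only [e₁, map_sub, map_add, map_pow, MvPolynomial.aeval_X, Matrix.cons_val_zero,
      Matrix.cons_val_one]
    ring
  rw [he, Associated.irreducible_iff (Associated.neg_left (Associated.refl _))]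
  change Irreducible (e.toMulEquiv f₀)
  rw [MulEquiv.irreducible_iff e.toMulEquiv]
  -- Eisenstein
  let E : MvPolynomial (Fin 2) L ≃ₐ[L] Polynomial (MvPolynomial (Fin 1) L) :=
    MvPolynomial.finSuccEquiv L 1
  have h0 : E (MvPolynomial.X 0) = X := MvPolynomial.finSuccEquiv_X_zero
  have h1 : E (MvPolynomial.X 1) = C (MvPolynomial.X 0) :=
    MvPolynomial.finSuccEquiv_X_succ (j := (0 : Fin 1))
  rw [← MulEquiv.irreducible_iff E.toMulEquiv]
  change Irreducible (E f₀)
  rw [hf₀, map_sub, map_add, map_pow, map_pow, h0, h1]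
  set t : MvPolynomial (Fin 1) L := MvPolynomial.X 0 with ht
  have htp : Prime t := MvPolynomial.X_prime
  have hform : (X ^ 2 - (C t ^ (4 * p) + C t) : Polynomial (MvPolynomial (Fin 1) L))
      = X ^ 2 + C (-(t ^ (4 * p) + t)) := by
    rw [C_neg, C_add, C_pow]; ring
  rw [hform]
  have hmonic : (X ^ 2 + C (-(t ^ (4 * p) + t)) : Polynomial (MvPolynomial (Fin 1) L)).Monic :=
    monic_X_pow_add_C _ two_ne_zero
  have hnat : (X ^ 2 + C (-(t ^ (4 * p) + t)) : Polynomial (MvPolynomial (Fin 1) L)).natDegree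
      = 2 := natDegree_X_pow_add_C
  have hprime : (Ideal.span {t}).IsPrime := (Ideal.span_singleton_prime htp.ne_zero).2 htp
  refine IsEisensteinAt.irreducible (𝓟 := Ideal.span {t}) ?_ hprime hmonic.isPrimitive
    (by rw [hnat]; norm_num)
  refine ⟨?_, ?_, ?_⟩
  · rw [hmonic.leadingCoeff]
    exact fun h => hprime.ne_top ((Ideal.eq_top_iff_one _).2 h)
  · intro m hm
    rw [hnat] at hm
    rw [coeff_add, coeff_X_pow, if_neg hm.ne, zero_add, coeff_C]
    split_ifs
    · rw [Ideal.mem_span_singleton, dvd_neg]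
      exact dvd_add (dvd_pow_self _ (by omega)) dvd_rfl
    · exact zero_mem _
  · rw [coeff_add, coeff_X_pow, if_neg (by norm_num), zero_add, coeff_C_zero, pow_two,
      Ideal.span_singleton_mul_span_singleton, Ideal.mem_span_singleton, dvd_neg]
    intro hdvd
    obtain ⟨k, hk⟩ : ∃ k, 4 * p = 1 + k := ⟨4 * p - 1, by omega⟩
    have hk0 : k ≠ 0 := by omega
    have h2 : t ^ (4 * p) + t = t * (t ^ k + 1) := by rw [hk]; ring
    rw [h2] at hdvd
    have h3 : t ∣ t ^ k + 1 := (mul_dvd_mul_iff_left htp.ne_zero).1 hdvd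
    have h4 : t ∣ 1 := (dvd_add_right (dvd_pow_self t hk0)).1 h3
    exact htp.not_isUnit (isUnit_of_dvd_one h4)

theorem totalDegree_pow' {L : Type u} [Field L] (f : MvPolynomial (Fin 2) L) (hf : f ≠ 0) (n : ℕ) :
    (f ^ n).totalDegree = n * f.totalDegree := by
  induction n with
  | zero => simp
  | succ n ih =>
    rw [pow_succ, MvPolynomial.totalDegree_mul_of_isDomain (pow_ne_zero _ hf) hf, ih]
    ring

theorem totalDegree_F (L : Type u) [Field L] (p : ℕ) (hp : 0 < p) :
    (F L p).totalDegree = 8 * p := by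
  have h1 : (MvPolynomial.X 0 ^ 2 + MvPolynomial.X 1 : MvPolynomial (Fin 2) L).totalDegree = 2 := by
    rw [MvPolynomial.totalDegree_add_eq_left_of_totalDegree_lt, MvPolynomial.totalDegree_X_pow]
    rw [MvPolynomial.totalDegree_X_pow, MvPolynomial.totalDegree_X]
    norm_num
  have h0 : (MvPolynomial.X 0 ^ 2 + MvPolynomial.X 1 : MvPolynomial (Fin 2) L) ≠ 0 := by
    intro h
    rw [h, MvPolynomial.totalDegree_zero] at h1
    omega
  have h2 := totalDegree_pow' _ h0 (4 * p)
  rw [h1] at h2
  rw [F, MvPolynomial.totalDegree_add_eq_left_of_totalDegree_lt, h2]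
  · ring
  · rw [h2, MvPolynomial.totalDegree_X]
    omega

theorem map_F (K L : Type u) [Field K] [Field L] [Algebra K L] (p : ℕ) :
    MvPolynomial.map (algebraMap K L) (F K p) = F L p := by
  simp [F]

/-! ### The substitutions -/

theorem le_natDegree {K : Type u} [Field K] (a b : K[X]) (hb : b ≠ 0) :
    2 * b.natDegree + 1 ≤ (a ^ 2 + X * b ^ 2).natDegree := by
  have h1 : (X * b ^ 2).natDegree = 2 * b.natDegree + 1 := by
    rw [natDegree_mul X_ne_zero (pow_ne_zero _ hb), natDegree_X, natDegree_pow]; ring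
  have h2 : (a ^ 2).natDegree = 2 * a.natDegree := natDegree_pow _ _
  rcases lt_or_ge (a ^ 2).natDegree (X * b ^ 2).natDegree with h | h
  · rw [natDegree_add_eq_right_of_natDegree_lt h, h1]
  · have h3 : (X * b ^ 2).natDegree < (a ^ 2).natDegree := by omega
    rw [natDegree_add_eq_left_of_natDegree_lt h3]
    omega

theorem main {K : Type u} [Field K] [Finite K] (p : ℕ) [hp : Fact p.Prime] [CharP K p]
    (a b : K[X]) (hb : b ≠ 0) :
    ¬ Irreducible ((a ^ 2 + X * b ^ 2) ^ (4 * p) + X * b ^ (8 * p)) := by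
  have h1 := le_natDegree a b hb
  have hp0 : 0 < p := hp.out.pos
  have h2 : (X * b ^ (8 * p)).natDegree = 8 * p * b.natDegree + 1 := by
    rw [natDegree_mul X_ne_zero (pow_ne_zero _ hb), natDegree_X, natDegree_pow]; ring
  have h3 : (X * b ^ (8 * p)).natDegree < 4 * p * (a ^ 2 + X * b ^ 2).natDegree := by
    rw [h2]
    have h4 : 4 * p * (2 * b.natDegree + 1) ≤ 4 * p * (a ^ 2 + X * b ^ 2).natDegree :=
      Nat.mul_le_mul_left _ h1
    have h5 : 4 * p * (2 * b.natDegree + 1) = 8 * p * b.natDegree + 4 * p := by ring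
    omega
  by_cases hp2 : p = 2
  · subst hp2
    exact Pool.Agent.Y713.ES.not_irreducible_two _ b hb h3
  · exact Pool.Agent.Y713.ES.not_irreducible_odd hp2 _ b h3

theorem poly_sub {K : Type u} [Field K] [Finite K] (p : ℕ) [hp : Fact p.Prime] [CharP K p]
    (g : K[X]) : ¬ Irreducible (MvPolynomial.aeval ![g, X] (F K p)) := by
  have h := main p g (1 : K[X]) one_ne_zero
  rw [one_pow, one_pow, mul_one] at h
  simpa [F] using h

theorem rat_sub {K : Type u} [Field K] [Finite K] (p : ℕ) [hp : Fact p.Prime] [CharP K p]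
    (g : RatFunc K) :
    ¬ Irreducible (MvPolynomial.aeval ![g, RatFunc.X] (F K p)).num := by
  set a : K[X] := g.num with ha
  set b : K[X] := g.denom with hb
  have hb0 : b ≠ 0 := RatFunc.denom_ne_zero g
  have hcop : IsCoprime a b := RatFunc.isCoprime_num_denom g
  have hp0 : 0 < p := hp.out.pos
  set h : K[X] := (a ^ 2 + X * b ^ 2) ^ (4 * p) + X * b ^ (8 * p) with hh
  set x : RatFunc K := MvPolynomial.aeval ![g, RatFunc.X] (F K p) with hx
  have hbr : algebraMap K[X] (RatFunc K) b ≠ 0 := by
    intro h0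
    apply hb0
    apply RatFunc.algebraMap_injective K
    rw [h0, map_zero]
  have hg : g = algebraMap K[X] (RatFunc K) a / algebraMap K[X] (RatFunc K) b :=
    (RatFunc.num_div_denom g).symm
  have hx1 : x * algebraMap K[X] (RatFunc K) (b ^ (8 * p)) = algebraMap K[X] (RatFunc K) h := by
    have e1 : x = (g ^ 2 + RatFunc.X) ^ (4 * p) + RatFunc.X := by
      rw [hx, F]; simp
    have e2 : (8 : ℕ) * p = 2 * (4 * p) := by ring
    rw [e1, hh, map_add, map_mul, map_pow, map_pow, map_add, map_mul, map_pow, map_pow, add_mul,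
      RatFunc.algebraMap_X]
    congr 1
    rw [e2, pow_mul (algebraMap K[X] (RatFunc K) b) 2 (4 * p), ← mul_pow]
    congr 1
    rw [hg]
    field_simp
  have hx2 : x.num * b ^ (8 * p) = h * x.denom := by
    apply RatFunc.algebraMap_injective K
    rw [map_mul, map_mul, ← hx1]
    have hd : algebraMap K[X] (RatFunc K) x.denom ≠ 0 := by
      intro h0
      apply RatFunc.denom_ne_zero x
      apply RatFunc.algebraMap_injective K
      rw [h0, map_zero]
    have h1 := RatFunc.num_div_denom x
    rw [div_eq_iff hd] at h1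
    rw [h1]
    ring
  have hc1 : IsCoprime h (b ^ (8 * p)) := by
    apply IsCoprime.pow_right
    have h1 : IsCoprime (a ^ 2 + X * b ^ 2) b := by
      have : a ^ 2 + X * b ^ 2 = a ^ 2 + b * (X * b) := by ring
      rw [this]
      exact (IsCoprime.pow_left hcop).add_mul_left_left _
    obtain ⟨k, hk⟩ : ∃ k, 8 * p = k + 1 := ⟨8 * p - 1, by omega⟩
    have h2 : h = (a ^ 2 + X * b ^ 2) ^ (4 * p) + b * (X * b ^ k) := by
      rw [hh, hk]; ring
    rw [h2]
    exact (IsCoprime.pow_left h1).add_mul_left_left _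
  have hd1 : h ∣ x.num := by
    have : h ∣ x.num * b ^ (8 * p) := ⟨x.denom, hx2⟩
    exact hc1.dvd_of_dvd_mul_right this
  have hd2 : x.num ∣ h := by
    have : x.num ∣ h * x.denom := ⟨b ^ (8 * p), hx2.symm⟩
    exact (RatFunc.isCoprime_num_denom x).dvd_of_dvd_mul_right this
  rw [(associated_of_dvd_dvd hd2 hd1).irreducible_iff]
  exact main p a b hb0

theorem exists_large (p : ℕ) [hp : Fact p.Prime] (n : ℕ) (hn : 17 ≤ n) :
    Nat.card (GaloisField p n) = p ^ n ∧ (8 * p) ^ 4 < p ^ n := by
  refine ⟨GaloisField.card p n (by omega), ?_⟩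
  have hp2 : 2 ≤ p := hp.out.two_le
  calc (8 * p) ^ 4 = 2 ^ 12 * p ^ 4 := by ring
    _ ≤ p ^ 12 * p ^ 4 := Nat.mul_le_mul_right _ (Nat.pow_le_pow_left hp2 12)
    _ = p ^ 16 := by rw [← pow_add]
    _ < p ^ n := Nat.pow_lt_pow_right hp.out.one_lt (by omega)

/-- **Main theorem.** Let `p` be a prime. For every finite field `K` of characteristic `p` the
polynomial `f = (X ^ 2 + Y) ^ (4 p) + Y` has total degree `8 p`, it is irreducible over `K` and over
all extension fields of `K`, and nevertheless `f (g (Y), Y)` is reducible for every polynomial `g`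
over `K`, of any degree, and the numerator of `f (g (Y), Y)` is reducible for every rational
function `g` over `K`. There are such fields with `q > d ^ 4`, `d = 8 p`: all those with at least
`p ^ 17` elements. -/
theorem result (p : ℕ) [Fact p.Prime] :
    (∀ (K : Type u) [Field K] [Finite K] [CharP K p],
      (F K p).totalDegree = 8 * p ∧ Irreducible (F K p) ∧
      (∀ (L : Type u) [Field L] [Algebra K L],
        Irreducible (MvPolynomial.map (algebraMap K L) (F K p))) ∧
      (∀ g : K[X], ¬ Irreducible (MvPolynomial.aeval ![g, X] (F K p))) ∧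
      (∀ g : RatFunc K, ¬ Irreducible (MvPolynomial.aeval ![g, RatFunc.X] (F K p)).num)) ∧
    ∀ n : ℕ, 17 ≤ n → Nat.card (GaloisField p n) = p ^ n ∧ (8 * p) ^ 4 < p ^ n := by
  have hp : 0 < p := (Fact.out : p.Prime).pos
  refine ⟨fun K _ _ _ => ⟨totalDegree_F K p hp, irreducible_F K p hp, fun L _ _ => ?_,
    poly_sub p, rat_sub p⟩, exists_large p⟩
  rw [map_F]
  exact irreducible_F L p hp

end Pool.Agent.Results.MP_46a474_nt.EverySubstitution
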